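import Pool.Agent.H6.TPI

set_option autoImplicit false

namespace Pool.Agent.Results.MP_babce1_al.NoFreiheit

universe u

/-- A transposed Poisson algebra structure on the `F`-vector space `A`. -/
structure TP (F A : Type u) [Field F] [AddCommGroup A] [Module F A] where
  mul : A →ₗ[F] A →ₗ[F] A
  br : A →ₗ[F] A →ₗ[F] A
  mul_comm : ∀ x y, mul x y = mul y x
  mul_assoc : ∀ x y z, mul (mul x y) z = mul x (mul y z)
  br_self : ∀ x, br x x = 0
  jacobi : ∀ x y z, br x (br y z) + br y (br z x) + br z (br x y) = 0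
  compat : ∀ x y z, (2 : F) • mul z (br x y) = br (mul z x) y + br x (mul z y)

section defs
variable {F A : Type u} [Field F] [AddCommGroup A] [Module F A]

/-- Linear maps preserving both products. -/
def IsHom {B : Type u} [AddCommGroup B] [Module F B] (S : TP F A) (T : TP F B)
    (φ : A →ₗ[F] B) : Prop :=
  (∀ a b, φ (S.mul a b) = T.mul (φ a) (φ b)) ∧ ∀ a b, φ (S.br a b) = T.br (φ a) (φ b)

/-- `S` is the free transposed Poisson algebra on the family `x`. -/
def IsFree {n : ℕ} (S : TP F A) (x : Fin n → A) : Prop :=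
  ∀ (B : Type u) [AddCommGroup B] [Module F B] (T : TP F B) (y : Fin n → B),
    ∃! φ : A →ₗ[F] B, IsHom S T φ ∧ ∀ i, φ (x i) = y i

/-- The subalgebra generated by `s`. -/
def subalg (S : TP F A) (s : Set A) : Submodule F A :=
  sInf {U | s ⊆ U ∧ ∀ a ∈ U, ∀ b ∈ U, S.mul a b ∈ U ∧ S.br a b ∈ U}

/-- The ideal generated by `f`. -/
def ideal (S : TP F A) (f : A) : Submodule F A :=
  sInf {U | f ∈ U ∧ ∀ a, ∀ b ∈ U, S.mul a b ∈ U ∧ S.br a b ∈ U}

end defs

inductive Tm (F : Type u) (n : ℕ) : Type u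
  | var (i : Fin n)
  | zero
  | add (s t : Tm F n)
  | smul (c : F) (t : Tm F n)
  | mul (s t : Tm F n)
  | br (s t : Tm F n)

section free
variable {F : Type u} [Field F] {n : ℕ}

def ev {B : Type u} [AddCommGroup B] [Module F B] (T : TP F B) (y : Fin n → B) : Tm F n → B
  | .var i => y i
  | .zero => 0
  | .add s t => ev T y s + ev T y t
  | .smul c t => c • ev T y t
  | .mul s t => T.mul (ev T y s) (ev T y t)
  | .br s t => T.br (ev T y s) (ev T y t)

def st (F : Type u) [Field F] (n : ℕ) : Setoid (Tm F n) where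
  r s t := ∀ (B : Type u) [AddCommGroup B] [Module F B] (T : TP F B) (y : Fin n → B),
    ev T y s = ev T y t
  iseqv := ⟨fun _ _ _ _ _ _ => rfl, fun h B _ _ T y => (h B T y).symm,
    fun h h' B _ _ T y => (h B T y).trans (h' B T y)⟩

def Fr (F : Type u) [Field F] (n : ℕ) : Type u := Quotient (st F n)

def mk (t : Tm F n) : Fr F n := Quotient.mk (st F n) t

def lf {B : Type u} [AddCommGroup B] [Module F B] (T : TP F B) (y : Fin n → B) : Fr F n → B :=
  Quotient.lift (ev T y) fun _ _ h => h B T y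

lemma ext' {a b : Fr F n} (h : ∀ (B : Type u) [AddCommGroup B] [Module F B] (T : TP F B)
    (y : Fin n → B), lf T y a = lf T y b) : a = b := by
  induction a using Quotient.inductionOn
  induction b using Quotient.inductionOn
  exact Quotient.sound h

def fadd : Fr F n → Fr F n → Fr F n := Quotient.map₂ Tm.add fun _ _ h _ _ h' B _ _ T y => by
  simp only [ev, h B T y, h' B T y]
def fmul : Fr F n → Fr F n → Fr F n := Quotient.map₂ Tm.mul fun _ _ h _ _ h' B _ _ T y => by
  simp only [ev, h B T y, h' B T y]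
def fbr : Fr F n → Fr F n → Fr F n := Quotient.map₂ Tm.br fun _ _ h _ _ h' B _ _ T y => by
  simp only [ev, h B T y, h' B T y]
def fsmul (c : F) : Fr F n → Fr F n := Quotient.map (Tm.smul c) fun _ _ h B _ _ T y => by
  simp only [ev, h B T y]

instance : Add (Fr F n) := ⟨fadd⟩
instance : Zero (Fr F n) := ⟨mk .zero⟩
instance : SMul F (Fr F n) := ⟨fsmul⟩
instance : Neg (Fr F n) := ⟨fsmul (-1)⟩

section
variable {B : Type u} [AddCommGroup B] [Module F B] (T : TP F B) (y : Fin n → B)

lemma lf_add (a b : Fr F n) : lf T y (a + b) = lf T y a + lf T y b := by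
  induction a using Quotient.inductionOn
  induction b using Quotient.inductionOn
  rfl
lemma lf_mul (a b : Fr F n) : lf T y (fmul a b) = T.mul (lf T y a) (lf T y b) := by
  induction a using Quotient.inductionOn
  induction b using Quotient.inductionOn
  rfl
lemma lf_br (a b : Fr F n) : lf T y (fbr a b) = T.br (lf T y a) (lf T y b) := by
  induction a using Quotient.inductionOn
  induction b using Quotient.inductionOn
  rfl
lemma lf_smul (c : F) (a : Fr F n) : lf T y (c • a) = c • lf T y a := by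
  induction a using Quotient.inductionOn
  rfl
lemma lf_neg (a : Fr F n) : lf T y (-a) = -lf T y a := by
  induction a using Quotient.inductionOn
  exact neg_one_smul F _
lemma lf_zero : lf T y (0 : Fr F n) = 0 := rfl
end

instance : AddCommGroup (Fr F n) where
  add_assoc a b c := ext' fun _ _ _ T y => by simp only [lf_add, add_assoc]
  zero_add a := ext' fun _ _ _ T y => by simp only [lf_add, lf_zero, zero_add]
  add_zero a := ext' fun _ _ _ T y => by simp only [lf_add, lf_zero, add_zero]
  add_comm a b := ext' fun _ _ _ T y => by simp only [lf_add, add_comm]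
  neg_add_cancel a := ext' fun _ _ _ T y => by simp only [lf_add, lf_neg, lf_zero, neg_add_cancel]
  nsmul := nsmulRec
  zsmul := zsmulRec

instance : Module F (Fr F n) where
  one_smul a := ext' fun _ _ _ T y => by simp only [lf_smul, one_smul]
  mul_smul c d a := ext' fun _ _ _ T y => by simp only [lf_smul, mul_smul]
  smul_zero c := ext' fun _ _ _ T y => by simp only [lf_smul, lf_zero, smul_zero]
  smul_add c a b := ext' fun _ _ _ T y => by simp only [lf_smul, lf_add, smul_add]
  add_smul c d a := ext' fun _ _ _ T y => by simp only [lf_smul, lf_add, add_smul]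
  zero_smul a := ext' fun _ _ _ T y => by simp only [lf_smul, lf_zero, zero_smul]

def FT (F : Type u) [Field F] (n : ℕ) : TP F (Fr F n) where
  mul := LinearMap.mk₂ F fmul
    (fun _ _ _ => ext' fun _ _ _ T y => by simp [lf_mul, lf_add])
    (fun _ _ _ => ext' fun _ _ _ T y => by simp [lf_mul, lf_smul])
    (fun _ _ _ => ext' fun _ _ _ T y => by simp [lf_mul, lf_add])
    (fun _ _ _ => ext' fun _ _ _ T y => by simp [lf_mul, lf_smul])
  br := LinearMap.mk₂ F fbr
    (fun _ _ _ => ext' fun _ _ _ T y => by simp [lf_br, lf_add])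
    (fun _ _ _ => ext' fun _ _ _ T y => by simp [lf_br, lf_smul])
    (fun _ _ _ => ext' fun _ _ _ T y => by simp [lf_br, lf_add])
    (fun _ _ _ => ext' fun _ _ _ T y => by simp [lf_br, lf_smul])
  mul_comm _ _ := ext' fun _ _ _ T y => by
    simp only [LinearMap.mk₂_apply, lf_mul]; exact T.mul_comm _ _
  mul_assoc _ _ _ := ext' fun _ _ _ T y => by
    simp only [LinearMap.mk₂_apply, lf_mul]; exact T.mul_assoc _ _ _
  br_self _ := ext' fun _ _ _ T y => by
    simp only [LinearMap.mk₂_apply, lf_br, lf_zero]; exact T.br_self _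
  jacobi _ _ _ := ext' fun _ _ _ T y => by
    simp only [LinearMap.mk₂_apply, lf_br, lf_zero, lf_add]; exact T.jacobi _ _ _
  compat _ _ _ := ext' fun _ _ _ T y => by
    simp only [LinearMap.mk₂_apply, lf_br, lf_mul, lf_add, lf_smul]; exact T.compat _ _ _

lemma free (F : Type u) [Field F] (n : ℕ) : IsFree (FT F n) fun i => mk (.var i) := by
  intro B _ _ T y
  refine ⟨⟨⟨lf T y, lf_add T y⟩, lf_smul T y⟩, ⟨⟨lf_mul T y, lf_br T y⟩, fun _ => rfl⟩, ?_⟩
  rintro ψ ⟨⟨h1, h2⟩, h3⟩
  ext a
  induction a using Quotient.inductionOn with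
  | h t =>
    change ψ (mk t) = ev T y t
    induction t with
    | var i => exact h3 i
    | zero => exact map_zero ψ
    | add s t a1 a2 => exact (map_add ψ (mk s) (mk t)).trans (by rw [a1, a2]; rfl)
    | smul c t a1 => exact (map_smul ψ c (mk t)).trans (by rw [a1]; rfl)
    | mul s t a1 a2 => exact (h1 (mk s) (mk t)).trans (by rw [a1, a2]; rfl)
    | br s t a1 a2 => exact (h2 (mk s) (mk t)).trans (by rw [a1, a2]; rfl)

end free

def comTP (F : Type u) [Field F] : TP F F where
  mul := LinearMap.mul F F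
  br := 0
  mul_comm := mul_comm
  mul_assoc := mul_assoc
  br_self _ := rfl
  jacobi _ _ _ := by simp
  compat _ _ _ := by simp

def lieTP (F : Type u) [Field F] : TP F (Matrix (Fin 6) (Fin 6) F) where
  mul := 0
  br := LinearMap.mul F _ - (LinearMap.mul F _).flip
  mul_comm _ _ := rfl
  mul_assoc _ _ _ := rfl
  br_self _ := by simp
  jacobi _ _ _ := by
    simp only [LinearMap.sub_apply, LinearMap.flip_apply, LinearMap.mul_apply']
    noncomm_ring
  compat _ _ _ := by simp

/-- The Freiheitssatz fails for transposed Poisson algebras (five generators). -/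
theorem result (F : Type u) [Field F] [CharZero F] :
    ∃ (A : Type u) (_ : AddCommGroup A) (_ : Module F A) (S : TP F A) (x : Fin 5 → A),
      IsFree S x ∧ ∃ f : A, f ∉ subalg S (x '' {i | i ≠ Fin.last 4}) ∧
        ∃ g : A, g ∈ ideal S f ∧ g ∈ subalg S (x '' {i | i ≠ Fin.last 4}) ∧ g ≠ 0 := by
  refine ⟨Fr F 5, inferInstance, inferInstance, FT F 5, _, free F 5, ?_⟩
  have hfree := free F 5
  generalize (fun i => mk (Tm.var i) : Fin 5 → Fr F 5) = x at *
  generalize FT F 5 = S at *
  let w := S.br (S.br (x 0) (x 1)) (S.br (S.br (x 2) (x 4)) (x 3))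
    + S.br (S.br (x 2) (x 4)) (S.br (S.br (x 0) (x 1)) (x 3))
    + S.br (S.br (x 0) (x 2)) (S.br (S.br (x 4) (x 1)) (x 3))
    + S.br (S.br (x 4) (x 1)) (S.br (S.br (x 0) (x 2)) (x 3))
    + S.br (S.br (x 0) (x 4)) (S.br (S.br (x 1) (x 2)) (x 3))
    + S.br (S.br (x 1) (x 2)) (S.br (S.br (x 0) (x 4)) (x 3))
  have hw : S.mul (x 3) w = 0 :=
    Pool.Agent.H6.TPI.ident S.mul S.br S.mul_comm S.br_self S.jacobi S.compat _ _ _ _ _
  refine ⟨x 3 + w, ?_, S.mul (x 3) (x 3), ?_, ?_, ?_⟩
  · intro hf
    obtain ⟨φ, ⟨⟨p1, p2⟩, p3⟩, -⟩ := hfree _ (lieTP F) ![Matrix.single 0 1 1, Matrix.single 1 2 1,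
      Matrix.single 2 3 1, Matrix.single 4 5 1, Matrix.single 3 4 1]
    obtain ⟨ψ, ⟨⟨q1, q2⟩, q3⟩, -⟩ := hfree _ (lieTP F) ![Matrix.single 0 1 1, Matrix.single 1 2 1,
      Matrix.single 2 3 1, Matrix.single 4 5 1, 0]
    have h1 : x 3 + w ∈ LinearMap.eqLocus φ ψ := by
      refine Submodule.mem_sInf.1 hf _ ⟨?_, ?_⟩
      · rintro _ ⟨i, hi, rfl⟩
        change φ (x i) = ψ (x i)
        rw [p3, q3]
        fin_cases i
        · rfl
        · rfl
        · rfl
        · rfl
        · exact absurd rfl hi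
      · intro a ha b hb
        rw [LinearMap.mem_eqLocus] at ha hb
        simp only [LinearMap.mem_eqLocus, p1, p2, q1, q2, ha, hb, and_self]
    rw [LinearMap.mem_eqLocus] at h1
    simp only [w, map_add, p2, q2, p3, q3] at h1
    have h2 := congrFun (congrFun h1 0) 5
    simp [lieTP] at h2
  · refine Submodule.mem_sInf.2 fun U hU => ?_
    have := (hU.2 (x 3) _ hU.1).1
    rwa [map_add, hw, add_zero] at this
  · refine Submodule.mem_sInf.2 fun U hU => ?_
    have h3 : x 3 ∈ U := hU.1 ⟨3, by decide, rfl⟩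
    exact (hU.2 _ h3 _ h3).1
  · intro h
    obtain ⟨φ, ⟨⟨p1, -⟩, p3⟩, -⟩ := hfree F (comTP F) fun _ => 1
    have := p1 (x 3) (x 3)
    rw [h, map_zero, p3] at this
    simp [comTP] at this

end Pool.Agent.Results.MP_babce1_al.NoFreiheit
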